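import Pool.Agent.V11253.TD.Wff

set_option autoImplicit false

/-!
Problem MP_f36693_lc, question Q1, answered in the negative: there is a Turing degree below the
omega-jump `0^(ω)` which is not the degree of any complete theory with a computable model; in
particular it is not the degree of a countably categorical theory with a computable model.
-/

namespace Pool.Agent.Results.MP_f36693_lc.DegreeWithoutTheory

open FirstOrder Encodable
open Nat.Partrec (Code)

open Classical in
/-- The characteristic function of a set of natural numbers. -/
noncomputable def char (A : Set ℕ) : ℕ →. ℕ := fun n => Part.some (if n ∈ A then 1 else 0)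

open Classical in
/-- The finite sequence of the first `k` values of the characteristic function of `A`. -/
noncomputable def start (A : Set ℕ) (k : ℕ) : List Bool := (List.range k).map fun n => decide (n ∈ A)

/-- The `e`-th set which is computably enumerable relative to `A`: all `n` such that for some `k` the
`e`-th program halts on the input that consists of the first `k` values of the characteristic
function of `A` and of `n`. -/
def W (A : Set ℕ) (e : ℕ) : Set ℕ :=
  {n | ∃ k : ℕ, ((Denumerable.ofNat Code e).eval (encode (start A k, n))).Dom}

/-- The Turing jump of `A`. -/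
def jump (A : Set ℕ) : Set ℕ := {e | e ∈ W A e}

/-- The `n`-th Turing jump of the empty set. -/
def zeroJump : ℕ → Set ℕ
  | 0 => ∅
  | n + 1 => jump (zeroJump n)

/-- The set of all (codes of) pairs `(n, x)` such that `x` is in the `n`-th jump of the empty set.
Its degree is `0^(ω)`. -/
def zeroOmega : Set ℕ := {m | m.unpair.2 ∈ zeroJump m.unpair.1}

/-- The signature in which the function symbols with `n` arguments are the numbers `i` such that
`fa i = some n` and the relation symbols with `n` arguments are the numbers `i` such that
`ra i = some n`. It is a computable signature if `fa` and `ra` are computable. -/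
def Sig (fa ra : ℕ → Option ℕ) : FirstOrder.Language.{0, 0} where
  Functions n := {i : ℕ // fa i = some n}
  Relations n := {i : ℕ // ra i = some n}

variable {fa ra : ℕ → Option ℕ}

/-- The Goedel number of a term. -/
def godelT {k : ℕ} : (Sig fa ra).Term (Empty ⊕ Fin k) → ℕ
  | .var (Sum.inl e) => e.elim
  | .var (Sum.inr i) => Nat.pair 0 i
  | .func f ts => Nat.pair 1 (Nat.pair f.1 (encode (List.ofFn fun i => godelT (ts i))))

/-- The Goedel number of a formula. -/
def godel : {k : ℕ} → (Sig fa ra).BoundedFormula Empty k → ℕ
  | _, .falsum => Nat.pair 2 0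
  | _, .equal t s => Nat.pair 3 (Nat.pair (godelT t) (godelT s))
  | _, .rel R ts => Nat.pair 4 (Nat.pair R.1 (encode (List.ofFn fun i => godelT (ts i))))
  | _, .imp φ ψ => Nat.pair 5 (Nat.pair (godel φ) (godel ψ))
  | _, .all φ => Nat.pair 6 (godel φ)

/-- The set of the Goedel numbers of the sentences in `T`. -/
def codes (T : (Sig fa ra).Theory) : Set ℕ := {m | ∃ σ ∈ T, godel σ = m}

/-- The structure `S` with domain `D ⊆ ℕ` is computable: the domain is computable and the functions
and relations which interpret the symbols are uniformly computable. -/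
def ComputableStructure (D : Set ℕ) (S : (Sig fa ra).Structure D) : Prop :=
  ComputablePred (fun n => n ∈ D) ∧
  (∃ F : ℕ → List ℕ → ℕ, Computable₂ F ∧
    ∀ (n : ℕ) (f : (Sig fa ra).Functions n) (x : Fin n → D),
      (S.funMap f x : ℕ) = F f.1 (List.ofFn fun i => (x i : ℕ))) ∧
  (∃ G : ℕ → List ℕ → Bool, Computable₂ G ∧
    ∀ (n : ℕ) (R : (Sig fa ra).Relations n) (x : Fin n → D),
      S.RelMap R x ↔ G R.1 (List.ofFn fun i => (x i : ℕ)) = true)

/-- There is a set `A`, computable relative to `0^(ω)`, such that no complete theory (maximal
consistent set of sentences) in a computable signature that has a computable model has the same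
Turing degree as `A`. -/
theorem result : ∃ A : Set ℕ, TuringReducible (char A) (char zeroOmega) ∧
    ∀ fa ra : ℕ → Option ℕ, Computable fa → Computable ra →
      ∀ T : (Sig fa ra).Theory, T.IsMaximal →
        (∃ (D : Set ℕ) (S : (Sig fa ra).Structure D), ComputableStructure D S ∧
          @Language.Theory.Model (Sig fa ra) D S T) →
        ¬ TuringEquivalent (char (codes T)) (char A) := by
  classical
  have hchi : ∀ B : ℕ → Bool, char {n | B n = true} = Pool.Agent.Helper227.chi B := by
    intro B
    funext n
    unfold char Pool.Agent.Helper227.chi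
    cases h : B n <;> simp [h]
  have hj : ∀ n, zeroJump n = {x | Pool.Agent.V11253.TD.Jmp n x = true} := by
    intro n
    induction n with
    | zero =>
      ext x
      simp [zeroJump, Pool.Agent.V11253.TD.Jmp]
    | succ n ih =>
      ext x
      have h1 : ∀ k, start (zeroJump n) k = (List.range k).map (Pool.Agent.V11253.TD.Jmp n) := by
        intro k
        unfold start
        rw [ih]
        refine List.map_congr_left fun i _ => ?_
        cases h : Pool.Agent.V11253.TD.Jmp n i <;> simp [h]
      show x ∈ W (zeroJump n) x ↔ Pool.Agent.Helper227.jump (Pool.Agent.V11253.TD.Jmp n) x = true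
      rw [Pool.Agent.Helper227.jump_eq_true]
      unfold W Pool.Agent.Helper227.WE
      simp only [h1]
  have hO : zeroOmega = {m | Pool.Agent.V11253.TD.Omega m = true} := by
    ext m
    show m.unpair.2 ∈ zeroJump m.unpair.1 ↔ _
    rw [hj]
    rfl
  refine ⟨{n | Pool.Agent.V11253.TD.AA n = true}, ?_, ?_⟩
  · rw [hchi, hO, hchi]
    exact Pool.Agent.V11253.TD.AA_le
  · rintro fa ra hfa hra T hT ⟨D, S, ⟨hD, ⟨F, hFc, hF⟩, ⟨G, hGc, hG⟩⟩, hM⟩ ⟨hTA, hAT⟩
    -- the signature and the numbering are those of the library
    have hSig : Sig fa ra = Pool.Agent.V11253.TD.Sig fa ra := rfl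
    have hgt : ∀ {k : ℕ} (t : (Sig fa ra).Term (Empty ⊕ Fin k)),
        godelT t = Pool.Agent.V11253.TD.gt (fa := fa) (ra := ra) t := by
      intro k t
      induction t with
      | var i =>
        rcases i with e | i
        · exact e.elim
        · rfl
      | func f ts ih =>
        have h1 : (fun i => godelT (ts i)) = fun i =>
            Pool.Agent.V11253.TD.gt (fa := fa) (ra := ra) (ts i) := funext ih
        rw [godelT, h1]
        rfl
    have hgn : ∀ {k : ℕ} (φ : (Sig fa ra).BoundedFormula Empty k),
        godel φ = Pool.Agent.V11253.TD.gn (fa := fa) (ra := ra) φ := by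
      intro k φ
      induction φ with
      | falsum => rfl
      | equal t s =>
        rw [godel, hgt, hgt]
        rfl
      | rel R ts =>
        have h1 : (fun i => godelT (ts i)) = fun i =>
            Pool.Agent.V11253.TD.gt (fa := fa) (ra := ra) (ts i) := funext fun i => hgt _
        rw [godel, h1]
        rfl
      | imp φ ψ ih₁ ih₂ =>
        rw [godel, ih₁, ih₂]
        rfl
      | all φ ih =>
        rw [godel, ih]
        rfl
    obtain ⟨g, hg, hg2⟩ := Pool.Agent.V11253.TD.exists_red hFc hGc hD
    obtain ⟨v, hv⟩ := Pool.Agent.V11253.TD.omega_values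
    have htr : ∀ σ : (Sig fa ra).Sentence, Pool.Agent.V11253.TD.Omega
        (Nat.pair (2 * (godel σ + 1)) (g (godel σ + 1) (godel σ, []))) = true ↔
        @Language.Sentence.Realize (Sig fa ra) D S σ := by
      intro σ
      have h1 := Pool.Agent.V11253.TD.tr_iff (fa := fa) (ra := ra) S hF hG σ (godel σ + 1) default
        default (by rw [← hgn]; exact Nat.lt_succ_self _)
      rw [← hgn, List.ofFn_zero, hg2] at h1
      unfold Pool.Agent.V11253.TD.Omega
      rw [Nat.unpair_pair]
      exact h1
    have hmem : ∀ σ : (Sig fa ra).Sentence, σ ∈ T ↔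
        @Language.Sentence.Realize (Sig fa ra) D S σ := by
      intro σ
      constructor
      · intro h
        exact @Language.Theory.realize_sentence_of_mem (Sig fa ra) D S T hM σ h
      · intro h
        rcases hT.2 σ with h1 | h1
        · exact h1
        · exact absurd h (@Language.Theory.realize_sentence_of_mem (Sig fa ra) D S T hM _ h1)
    let f : ℕ → ℕ := fun m => bif decide (Pool.Agent.V11253.TD.nd fa ra m = some (1, 0)) then
      Nat.pair (2 * (m + 1)) (g (m + 1) (m, [])) else v false
    have hf : Computable f := by
      have h1 : Computable fun m => decide (Pool.Agent.V11253.TD.nd fa ra m = some (1, 0)) := by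
        have h2 : Primrec fun o : Option (ℕ × ℕ) => decide (o = some (1, 0)) :=
          (Primrec.eq.comp Primrec.id (Primrec.const _)).decide
        exact h2.to_comp.comp (Pool.Agent.V11253.TD.computable_nd hfa hra)
      have h3 : Computable fun m : ℕ => Nat.pair (2 * (m + 1)) (g (m + 1) (m, [])) := by
        refine Primrec₂.natPair.to_comp.comp ?_ ?_
        · exact (Primrec.nat_mul.comp (Primrec.const 2) Primrec.succ).to_comp
        · exact hg.comp Computable.succ (Computable.pair Computable.id (Computable.const []))
      exact Computable.cond h1 h3 (Computable.const _)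
    have hkey : ∀ m, decide (m ∈ codes T) = Pool.Agent.V11253.TD.Omega (f m) := by
      intro m
      have hnd := Pool.Agent.V11253.TD.nd_formula (fa := fa) (ra := ra) m 0
      by_cases h : Pool.Agent.V11253.TD.nd fa ra m = some (1, 0)
      · obtain ⟨σ, hσ⟩ := hnd.2 ⟨0, le_rfl, h⟩
        have hσ' : godel (fa := fa) (ra := ra) σ = m := by rw [hgn]; exact hσ
        have hfm : f m = Nat.pair (2 * (m + 1)) (g (m + 1) (m, [])) := by simp [f, h]
        rw [hfm, Bool.eq_iff_iff, decide_eq_true_iff, ← hσ', htr σ]
        constructor
        · rintro ⟨τ, hτ, hτσ⟩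
          rw [hmem, ← htr τ, hτσ, htr σ] at hτ
          exact hτ
        · intro h1
          exact ⟨σ, (hmem σ).2 h1, rfl⟩
      · have hfm : f m = v false := by simp [f, h]
        rw [hfm, hv, decide_eq_false_iff_not]
        rintro ⟨σ, -, hσ⟩
        obtain ⟨j, hj0, hj1⟩ := hnd.1 ⟨σ, by rw [← hσ, hgn]⟩
        have : j = 0 := by omega
        subst this
        exact h hj1
    have hcodes : codes T = {n | decide (n ∈ codes T) = true} := by
      ext m
      simp
    rw [hcodes, hchi, hchi] at hTA hAT
    exact Pool.Agent.V11253.TD.diag hTA hAT hf hkey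

end Pool.Agent.Results.MP_f36693_lc.DegreeWithoutTheory
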